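import Pool.Agent.Lib_helper71.LegLevel.Final

/-!
# `M_p / √p` is unbounded (MP_de1e57_nt)

Let `q` be an odd prime.  By Dirichlet's theorem and quadratic reciprocity there are arbitrarily
large primes `p` with `χ_p(n) = χ_q(n)` for all integers `n` prime to `q` with `|n| ≤ 8q²`.
Comparing Fourier transforms on `ℤ/p` and using Parseval, the walk `m ↦ Ψ_p(0,m)` is, up to an
additive constant and in mean square with error at most `p/q²`, equal to `c·Ψ_q(0,⌊qm/p⌋)`
with `|c| = √(p/q)`.  The walk modulo `q` has a level set with `L > √q` elements.  On the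
corresponding `≥ Lp/(2q)` times, `Ψ_p(0,·)` is concentrated in a window of length `O(√(p/(qL)))`,
which forces a level of size `≥ q^{1/4} √p / 24`.
-/

namespace Pool.Agent.LGP.Kept.Unbounded

open Pool.Agent.Lib_helper96.Legendre Pool.Agent.Lib_helper71.LegLevel

/-- For every real `B` there are arbitrarily large primes `p` with `M_p > B √p`, and with
`Z_p(a) > B √p` for some `a ∈ F_p`. -/
theorem result (B : ℝ) (N : ℕ) :
    ∃ (p : ℕ) (hp : Fact p.Prime), N < p ∧ p ≠ 2 ∧
      B * Real.sqrt p < M p ∧ ∃ a : ZMod p, B * Real.sqrt p < Z p a := by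
  obtain ⟨p, hp, hpN, hp2, hb⟩ := unbounded B N
  obtain ⟨a, ha⟩ := exists_Z p hp2
  exact ⟨p, hp, hpN, hp2, hb, a, by rw [ha]; exact hb⟩

end Pool.Agent.LGP.Kept.Unbounded
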